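import Pool.Agent.Helper890.Cov.All

/-!
# Matheron's problem in `ℝ³` for convex bodies of class `C^2_+`
-/

namespace Pool.Agent.Results.MP_f27d50_gt.C2PlusCase

open MeasureTheory Set Topology

/-- `K` is of class `C^2_+`: its boundary is a `C^2` hypersurface with nonvanishing Gauss
curvature.  Near every boundary point `p` the set `K` is `{ρ ≤ 0}` with a function `ρ` which is
`C^2` in a neighbourhood of `p` and has nonzero derivative at `p`, and the second derivative of `ρ`
at `p`, restricted to the tangent hyperplane `{w : dρ(p) w = 0}` (a nonzero multiple of the second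
fundamental form of the boundary at `p`), is nondegenerate.  For a convex body the second
fundamental form is semidefinite, so this says that the Gauss curvature is strictly positive at
every point. -/
def IsC2Plus {n : ℕ} (K : Set (EuclideanSpace ℝ (Fin n))) : Prop :=
  ∀ p ∈ frontier K, ∃ ρ : EuclideanSpace ℝ (Fin n) → ℝ,
    ContDiffAt ℝ 2 ρ p ∧ fderiv ℝ ρ p ≠ 0 ∧ (∀ᶠ x in 𝓝 p, x ∈ K ↔ ρ x ≤ 0) ∧
    ∀ w, w ≠ 0 → fderiv ℝ ρ p w = 0 →
      ∃ w', fderiv ℝ ρ p w' = 0 ∧ fderiv ℝ (fderiv ℝ ρ) p w w' ≠ 0

/-- Any two convex bodies of class `C^2_+` in 3-space with the same covariogram are translates of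
each other or of each other's point reflection. -/
theorem result :
    ∀ K L : Set (EuclideanSpace ℝ (Fin 3)),
      IsCompact K → Convex ℝ K → (interior K).Nonempty →
      IsCompact L → Convex ℝ L → (interior L).Nonempty →
      IsC2Plus K → IsC2Plus L →
      (∀ x : EuclideanSpace ℝ (Fin 3),
        volume (K ∩ ((fun y => y + x) '' K)) = volume (L ∩ ((fun y => y + x) '' L))) →
      ∃ z : EuclideanSpace ℝ (Fin 3),
        (L = (fun y => y + z) '' K ∨ L = (fun y => z - y) '' K) := by
  intro K L hK1 hK2 hK3 hL1 hL2 hL3 hKc hLc hg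
  have hg' : ∀ x, Pool.Agent.Helper890.Cov.covg L x = Pool.Agent.Helper890.Cov.covg K x := by
    intro x
    unfold Pool.Agent.Helper890.Cov.covg Measure.real
    rw [hg x]
  obtain ⟨z, hz⟩ := Pool.Agent.Helper890.Cov.fin 3 (by norm_num) L K hL1 hL2 hL3 hK1 hK2 hK3 hLc hKc hg'
  refine ⟨z, ?_⟩
  rcases hz with h | h
  · exact Or.inl h
  · right
    rw [h]
    congr 1
    funext x
    abel

end Pool.Agent.Results.MP_f27d50_gt.C2PlusCase
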